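import Mathlib
import Pool.Agent.H410R3.KS.Main

/-!
Intervals of fixed points of the circle homeomorphism of an order.
-/

set_option autoImplicit false

open Set Filter Topology MeasureTheory
open Pool.Agent.Helper114.AB Pool.Agent.H410R3.KS

namespace Pool.Agent.H967KS

variable {r : ℕ → ℕ → Prop} (hr : STO r)

theorem not_fix_slot (n : ℕ) {t : ℝ} (h1 : aL r n < t) (h2 : t < aL r n + w n) :
    oc hr (t : T1) ≠ (t : T1) := by
  have hwn := w_pos n
  have h3 : t = aL r n + w n * ((t - aL r n) / w n) := by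
    field_simp
    ring
  rw [h3]
  refine slot_not_fix hr n ⟨div_pos (by linarith) hwn, ?_⟩
  rw [div_lt_one hwn]
  linarith

include hr in
/-- the slots are dense in `[0, 1/2]` -/
theorem exists_slot {x y : ℝ} (h0 : 0 ≤ x) (hxy : x < y) (h1 : y ≤ 1 / 2) :
    ∃ t ∈ Ioo x y, ∃ n, aL r n < t ∧ t < aL r n + w n := by
  by_contra hcon
  push Not at hcon
  have hdis : Pairwise (Function.onFun Disjoint fun n => Ioo (aL r n) (aL r n + w n)) := by
    intro m n hmn
    rcases hr.tot m n with h | h | h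
    · exact absurd h hmn
    · have := aL_add_le hr h
      refine Set.disjoint_left.2 fun z hz hz' => ?_
      linarith [hz.2, hz'.1]
    · have := aL_add_le hr h
      refine Set.disjoint_left.2 fun z hz hz' => ?_
      linarith [hz'.2, hz.1]
  have hU : volume (⋃ n, Ioo (aL r n) (aL r n + w n)) = ENNReal.ofReal (1 / 2) := by
    rw [measure_iUnion hdis (fun n => measurableSet_Ioo)]
    simp only [Real.volume_Ioo, add_sub_cancel_left]
    rw [← ENNReal.ofReal_tsum_of_nonneg w_nonneg' w_summable', tsum_w']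
  have hsub : Ioo x y ∪ (⋃ n, Ioo (aL r n) (aL r n + w n)) ⊆ Icc 0 (1 / 2) := by
    rintro z (hz | hz)
    · exact ⟨by linarith [hz.1], by linarith [hz.2]⟩
    · obtain ⟨n, hn⟩ := mem_iUnion.1 hz
      have h2 := aL_nonneg r n
      have h3 := aL_le_half hr n
      exact ⟨by linarith [hn.1], by linarith [hn.2]⟩
  have hd2 : Disjoint (Ioo x y) (⋃ n, Ioo (aL r n) (aL r n + w n)) := by
    refine Set.disjoint_left.2 fun z hz hz' => ?_
    obtain ⟨n, hn⟩ := mem_iUnion.1 hz'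
    have := hcon z hz n hn.1
    linarith [hn.2]
  have h3 := measure_mono (μ := (volume : Measure ℝ)) hsub
  rw [measure_union hd2 (MeasurableSet.iUnion fun n => measurableSet_Ioo), hU, Real.volume_Ioo,
    Real.volume_Icc, ← ENNReal.ofReal_add (by linarith) (by norm_num),
    ENNReal.ofReal_le_ofReal_iff (by norm_num)] at h3
  linarith

/-- an interval of fixed points lies in `[1/2, 1]` modulo 1 -/
theorem fixint {c d : ℝ} (hcd : c < d) (h : ∀ x ∈ Icc c d, oc hr (x : T1) = (x : T1)) :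
    ∃ j : ℤ, 1 / 2 + (j : ℝ) ≤ c ∧ d ≤ 1 + (j : ℝ) := by
  have hf1 := Int.floor_le c
  have hf2 := Int.lt_floor_add_one c
  refine ⟨⌊c⌋, ?_, ?_⟩
  · by_contra hcon
    push Not at hcon
    have hm : c < min d (1 / 2 + (⌊c⌋ : ℝ)) := lt_min hcd hcon
    obtain ⟨t, ht, n, hn1, hn2⟩ := exists_slot hr (x := c - ⌊c⌋)
      (y := min d (1 / 2 + (⌊c⌋ : ℝ)) - ⌊c⌋) (by linarith) (by linarith)
      (by have := min_le_right d (1 / 2 + (⌊c⌋ : ℝ)); linarith)
    refine not_fix_slot hr n hn1 hn2 ?_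
    have e : ((t : ℝ) : T1) = ((t + ⌊c⌋ : ℝ) : T1) := (coe_eq_iff _ _).2 ⟨-⌊c⌋, by push_cast; ring⟩
    rw [e]
    apply h
    have := min_le_left d (1 / 2 + (⌊c⌋ : ℝ))
    exact ⟨by linarith [ht.1], by linarith [ht.2]⟩
  · by_contra hcon
    push Not at hcon
    have hm : 1 + (⌊c⌋ : ℝ) < min d (3 / 2 + (⌊c⌋ : ℝ)) := lt_min hcon (by linarith)
    obtain ⟨t, ht, n, hn1, hn2⟩ := exists_slot hr (x := 0)
      (y := min d (3 / 2 + (⌊c⌋ : ℝ)) - (1 + ⌊c⌋)) le_rfl (by linarith)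
      (by have := min_le_right d (3 / 2 + (⌊c⌋ : ℝ)); linarith)
    refine not_fix_slot hr n hn1 hn2 ?_
    have e : ((t : ℝ) : T1) = ((t + (1 + ⌊c⌋) : ℝ) : T1) :=
      (coe_eq_iff _ _).2 ⟨-(1 + ⌊c⌋), by push_cast; ring⟩
    rw [e]
    apply h
    have := min_le_left d (3 / 2 + (⌊c⌋ : ℝ))
    exact ⟨by linarith [ht.1], by linarith [ht.2]⟩

theorem fix_arc {x : ℝ} (hx : x ∈ Icc (1 / 2 : ℝ) 1) : oc hr (x : T1) = (x : T1) := by
  rw [oc_coe, ol_fix hr (by linarith [hx.1]) hx.2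
    (fun n => Or.inr ((aL_le_half hr n).trans hx.1))]

theorem fix_of_out {x : ℝ} (h0 : 0 ≤ x) (h1 : x ≤ 1) (h : ∀ n, x ≤ aL r n ∨ aL r n + w n ≤ x) :
    oc hr (x : T1) = (x : T1) := by
  rw [oc_coe, ol_fix hr h0 h1 h]

end Pool.Agent.H967KS
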