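import Mathlib
import Pool.Agent.H967KS.Null

/-!
A conjugacy between the torus maps of two orders gives an isomorphism of the orders.
-/

set_option autoImplicit false

open Set Filter Topology MeasureTheory
open Pool.Agent.Helper114.AB Pool.Agent.H410R3.KS

namespace Pool.Agent.H967KS

variable {r r' : ℕ → ℕ → Prop} (hr : STO r) (hr' : STO r')
variable {α : ℝ} (hα : Irrational α) (H : T2 ≃ₜ T2) (hH : ∀ p, H (tor α hr p) = tor α hr' (H p))

include hα hH in
/-- the lift of the map of the fixed circles (first part of the proof of `bwd`) -/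
theorem data : ∃ (G : ℝ → ℝ) (k : ℕ → ℕ) (m : ℕ → ℤ), Continuous G ∧
    (∀ x : ℝ, ((G x : ℝ) : T1) = (H (0, (x : T1))).2) ∧
    (∀ n, G (aL r n) = aL r' (k n) + m n) ∧ (∀ n, G (aL r n + w n) = aL r' (k n) + w (k n) + m n) ∧
    (∀ x y : ℝ, x ∈ Icc (0:ℝ) (1 / 2) → oc hr (x : T1) = (x : T1) → y ∈ Icc (0:ℝ) (1 / 2) →
      oc hr (y : T1) = (y : T1) → x < y → G x < G y) := by
  classical
  have hcoe : Continuous (fun x : ℝ => (x : T1)) := AddCircle.continuous_mk' 1
  -- the lift
  let g : C(ℝ, T1) := ⟨fun x => (H (0, (x : T1))).2, by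
    exact continuous_snd.comp (H.continuous.comp (by fun_prop))⟩
  obtain ⟨e0, he0⟩ := QuotientAddGroup.mk_surjective (g 0)
  obtain ⟨G, ⟨-, hG⟩, -⟩ := (AddCircle.isCoveringMap_coe (1:ℝ)).existsUnique_continuousMap_lifts g
    (a₀ := 0) (e₀ := e0) he0
  have hGg : ∀ x : ℝ, ((G x : ℝ) : T1) = (H (0, (x : T1))).2 := fun x => congrFun hG x
  -- the fixed points
  set S : Set ℝ := {x | x ∈ Icc (0:ℝ) (1 / 2) ∧ oc hr (x : T1) = (x : T1)} with hS
  have hSsub : S ⊆ Icc (0:ℝ) (1/2) := fun x hx => hx.1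
  have h0S : (0:ℝ) ∈ S := ⟨by constructor <;> norm_num, fix_zero hr⟩
  have h1S : (1/2:ℝ) ∈ S := ⟨by constructor <;> norm_num, fix_half hr⟩
  have hfix : ∀ x : ℝ, oc hr' ((G x : ℝ) : T1) = ((G x : ℝ) : T1) ↔ oc hr (x : T1) = (x : T1) := by
    intro x
    rw [hGg]
    exact (fix_iff hr hr' hα H hH (0, (x : T1))).symm
  have hinj : ∀ x ∈ Icc (0:ℝ) (1/2), ∀ y ∈ S, G x = G y → x = y := by
    intro x hx y hy hxy
    have h1 : oc hr (x : T1) = (x : T1) := by
      rw [← hfix x, hxy, hfix y]; exact hy.2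
    have h2 := inj_fix hr hr' hα H hH h1 (z' := (y : T1)) (by rw [← hGg, ← hGg, hxy])
    exact coe_inj01 ⟨hx.1, by linarith [hx.2]⟩ ⟨hy.1.1, by linarith [hy.1.2]⟩ h2
  -- slots
  have hslot : ∀ n, ∃ (k : ℕ) (m : ℤ), G (aL r n) = aL r' k + m ∧ G (aL r n + w n) = aL r' k + w k + m := by
    intro n
    have hwn := w_pos n
    have ha0 := aL_nonneg r n
    have ha1 := aL_le_half hr n
    have hhalf : (1/2:ℝ) ∈ Ioo (0:ℝ) 1 := by constructor <;> norm_num
    -- the midpoint
    rcases slot_or_fix hr' (H (0, ((aL r n + w n * (1/2) : ℝ) : T1))).2 with h | ⟨k, s, hs, hks⟩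
    · exfalso
      exact slot_not_fix hr n hhalf ((fix_iff hr hr' hα H hH (0, _)).2 h)
    have hwk := w_pos k
    have hwk' := w_le k
    have hk0 := aL_nonneg r' k
    have hk1 := aL_le_half hr' k
    have hA := endpt hr hr' hα H hH (Ioo_subset_Icc_self hhalf) (Ioo_subset_Icc_self hs) hks
      (fun j => -(j:ℤ)) (e := 0)
      (zp_tendsto_zero (Fs_zero n) (Fs_one n) (fun t ht => lt_Fs n ht) hhalf)
      (zp_tendsto_zero (Fs_zero k) (Fs_one k) (fun t ht => lt_Fs k ht) hs) (fix_end0 hr n)
    have hB := endpt hr hr' hα H hH (Ioo_subset_Icc_self hhalf) (Ioo_subset_Icc_self hs) hks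
      (fun j => (j:ℤ)) (e := 1)
      (zp_tendsto_one (Fs_zero n) (Fs_one n) (fun t ht => lt_Fs n ht) hhalf)
      (zp_tendsto_one (Fs_zero k) (Fs_one k) (fun t ht => lt_Fs k ht) hs) (fix_end1 hr n)
    simp only [mul_zero, add_zero, mul_one] at hA hB
    -- the value at the midpoint
    have hmid : ∃ m : ℤ, G (aL r n + w n * (1/2)) = aL r' k + w k * s + m := by
      apply (coe_eq_iff _ _).1
      rw [hGg, hks]
    obtain ⟨m, hm⟩ := hmid
    have hlo : aL r' k + m < G (aL r n + w n * (1/2)) := by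
      rw [hm]; have := mul_pos hwk hs.1; linarith
    have hhi : G (aL r n + w n * (1/2)) < aL r' k + w k + m := by
      rw [hm]; have := mul_lt_of_lt_one_right hwk hs.2; linarith
    have hlofix : oc hr' ((aL r' k + m : ℝ) : T1) = ((aL r' k + m : ℝ) : T1) := by
      have h1 : ((aL r' k + m : ℝ) : T1) = ((aL r' k : ℝ) : T1) := (coe_eq_iff _ _).2 ⟨m, rfl⟩
      rw [h1]
      have := fix_end0 hr' k
      simpa using this
    have hhifix : oc hr' ((aL r' k + w k + m : ℝ) : T1) = ((aL r' k + w k + m : ℝ) : T1) := by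
      have h1 : ((aL r' k + w k + m : ℝ) : T1) = ((aL r' k + w k : ℝ) : T1) :=
        (coe_eq_iff _ _).2 ⟨m, rfl⟩
      rw [h1]
      have := fix_end1 hr' k
      simpa using this
    have hkey : ∀ e : ℝ, oc hr (e : T1) = (e : T1) →
        (∀ t ∈ uIcc (aL r n + w n * (1/2)) e, oc hr (t : T1) = (t : T1) → t = e) →
        G e = aL r' k + m ∨ G e = aL r' k + w k + m := by
      intro e he hun
      have hivt := intermediate_value_uIcc (a := aL r n + w n * (1/2)) (b := e) (f := G)
        G.continuous.continuousOn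
      rcases lt_trichotomy (G e) (aL r' k + m) with h | h | h
      · exfalso
        obtain ⟨t, ht, hGt⟩ := hivt (show aL r' k + m ∈ _ from by
          rw [uIcc_comm, uIcc_of_le (h.trans hlo).le]; exact ⟨h.le, hlo.le⟩)
        have h2 := hun t ht ((hfix t).1 (by rw [hGt]; exact hlofix))
        rw [← h2, hGt] at h
        exact lt_irrefl _ h
      · exact Or.inl h
      · right
        rcases lt_trichotomy (G e) (aL r' k + w k + m) with h3 | h3 | h3
        · exfalso
          have h4 : G e = (aL r' k + w k * ((G e - m - aL r' k) / w k)) + m := by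
            field_simp
            ring
          have h5 : ((G e : ℝ) : T1) = ((aL r' k + w k * ((G e - m - aL r' k) / w k) : ℝ) : T1) :=
            (coe_eq_iff _ _).2 ⟨m, h4⟩
          have h6 := (hfix e).2 he
          rw [h5] at h6
          refine slot_not_fix hr' k ⟨div_pos (by linarith) hwk, ?_⟩ h6
          rw [div_lt_one hwk]
          linarith
        · exact h3
        · exfalso
          obtain ⟨t, ht, hGt⟩ := hivt (show aL r' k + w k + m ∈ _ from by
            rw [uIcc_of_le (hhi.trans h3).le]; exact ⟨hhi.le, h3.le⟩)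
          have h2 := hun t ht ((hfix t).1 (by rw [hGt]; exact hhifix))
          rw [← h2, hGt] at h3
          exact lt_irrefl _ h3
    have hwint : ∀ j : ℤ, w k ≠ j := by
      intro j hj
      have h1 : (0:ℝ) < j := hj ▸ hwk
      have h2 : (j:ℝ) ≤ 1 / 4 := hj ▸ hwk'
      have h3 : (1:ℤ) ≤ j := by exact_mod_cast h1
      have h4 : (1:ℝ) ≤ j := by exact_mod_cast h3
      linarith
    have hbet : ∀ t, aL r n < t → t < aL r n + w n → oc hr (t : T1) ≠ (t : T1) := by
      intro t h1 h2
      have h3 : t = aL r n + w n * ((t - aL r n) / w n) := by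
        field_simp
        ring
      rw [h3]
      refine slot_not_fix hr n ⟨div_pos (by linarith) hwn, ?_⟩
      rw [div_lt_one hwn]
      linarith
    refine ⟨k, m, ?_, ?_⟩
    · have hfa : oc hr ((aL r n : ℝ) : T1) = ((aL r n : ℝ) : T1) := by
        have := fix_end0 hr n
        simpa using this
      rcases hkey (aL r n) hfa (fun t ht h => by
        rw [uIcc_comm, uIcc_of_le (by linarith)] at ht
        by_contra hne
        exact hbet t (lt_of_le_of_ne ht.1 (Ne.symm hne)) (by linarith [ht.2]) h) with h | h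
      · exact h
      · exfalso
        rw [← hGg] at hA
        obtain ⟨j, hj⟩ := (coe_eq_iff _ _).1 hA
        apply hwint (j - m)
        push_cast
        linarith
    · have hfb : oc hr ((aL r n + w n : ℝ) : T1) = ((aL r n + w n : ℝ) : T1) := by
        have := fix_end1 hr n
        simpa using this
      rcases hkey (aL r n + w n) hfb (fun t ht h => by
        rw [uIcc_of_le (by linarith)] at ht
        by_contra hne
        exact hbet t (by linarith [ht.1]) (lt_of_le_of_ne ht.2 hne) h) with h | h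
      · exfalso
        rw [← hGg] at hB
        obtain ⟨j, hj⟩ := (coe_eq_iff _ _).1 hB
        apply hwint (m - j)
        push_cast
        linarith
      · exact h
  choose k m hk1 hk2 using hslot
  have hSa : ∀ n, aL r n ∈ S := fun n => by
    have h1 := aL_nonneg r n
    have h2 := aL_le_half hr n
    have h3 := w_pos n
    refine ⟨⟨h1, by linarith⟩, ?_⟩
    have := fix_end0 hr n
    simpa using this
  have hSb : ∀ n, aL r n + w n ∈ S := fun n => by
    have h1 := aL_nonneg r n
    have h2 := aL_le_half hr n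
    have h3 := w_pos n
    refine ⟨⟨by linarith, by linarith⟩, ?_⟩
    have := fix_end1 hr n
    simpa using this
  have hmono : ∀ x ∈ S, ∀ y ∈ S, x < y → G x < G y := by
    rcases lt_trichotomy (G 0) (G (1/2)) with h | h | h
    · exact ivt_mono G.continuous hSsub h1S hinj h
    · have := hinj 0 (hSsub h0S) _ h1S h
      norm_num at this
    · exfalso
      have h2 := ivt_mono (G := fun x => - G x) G.continuous.neg hSsub h1S
        (fun x hx y hy hxy => hinj x hx y hy (neg_injective hxy)) (by simpa using h)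
        (aL r 0) (hSa 0) (aL r 0 + w 0) (hSb 0) (by linarith [w_pos 0])
      rw [hk1, hk2] at h2
      linarith [w_pos (k 0)]
  exact ⟨G, k, m, G.continuous, hGg, hk1, hk2,
    fun x y hx hx' hy hy' hxy => hmono x ⟨hx, hx'⟩ y ⟨hy, hy'⟩ hxy⟩

include hα hH in
/-- the arc of fixed points is mapped into itself -/
theorem arc {G : ℝ → ℝ} (hG : Continuous G)
    (hGg : ∀ x : ℝ, ((G x : ℝ) : T1) = (H (0, (x : T1))).2) :
    ∃ j : ℤ, ∀ x ∈ Icc (1 / 2 : ℝ) 1, G x ∈ Icc (1 / 2 + (j : ℝ)) (1 + (j : ℝ)) := by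
  have hfix : ∀ x : ℝ, oc hr' ((G x : ℝ) : T1) = ((G x : ℝ) : T1) ↔ oc hr (x : T1) = (x : T1) := by
    intro x
    rw [hGg]
    exact (fix_iff hr hr' hα H hH (0, (x : T1))).symm
  have h1 := hG.continuousOn.image_Icc (a := (1 / 2 : ℝ)) (b := 1) (by norm_num)
  set c := sInf (G '' Icc (1 / 2 : ℝ) 1)
  set d := sSup (G '' Icc (1 / 2 : ℝ) 1)
  have hmem : ∀ x ∈ Icc (1 / 2 : ℝ) 1, G x ∈ Icc c d := by
    intro x hx
    rw [← h1]
    exact mem_image_of_mem _ hx
  have hcd : c < d := by
    have m1 := hmem (1 / 2) (by norm_num)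
    have m2 := hmem 1 (by norm_num)
    by_contra hcon
    push Not at hcon
    have e : G (1 / 2) = G 1 := by linarith [m1.1, m1.2, m2.1, m2.2]
    have h2 := inj_fix hr hr' hα H hH (fix_arc hr (x := 1 / 2) (by norm_num))
      (z' := ((1 : ℝ) : T1)) (by rw [← hGg, ← hGg, e])
    obtain ⟨i, hi⟩ := (coe_eq_iff _ _).1 h2
    have h3 : (i : ℝ) = - (1 / 2) := by linarith
    have h4 : (-1 : ℝ) < i := by linarith
    have h5 : (i : ℝ) < 0 := by linarith
    have h6 : (-1 : ℤ) < i := by exact_mod_cast h4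
    have h7 : i < 0 := by exact_mod_cast h5
    omega
  obtain ⟨j, hj1, hj2⟩ := fixint hr' hcd (by
    intro y hy
    rw [← h1] at hy
    obtain ⟨x, hx, rfl⟩ := hy
    exact (hfix x).2 (fix_arc hr hx))
  exact ⟨j, fun x hx => ⟨hj1.trans (hmem x hx).1, (hmem x hx).2.trans hj2⟩⟩

include hα hH in
/-- a conjugacy gives an isomorphism -/
theorem iso : ∃ π : ℕ ≃ ℕ, ∀ m n, r m n ↔ r' (π m) (π n) := by
  classical
  have hH' : ∀ p, H.symm (tor α hr' p) = tor α hr (H.symm p) := by
    intro p
    rw [Homeomorph.symm_apply_eq, hH, H.apply_symm_apply]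
  obtain ⟨G, k, m, hG, hGg, hk1, hk2, hmono⟩ := data hr hr' hα H hH
  obtain ⟨G', k', m', hG', hGg', -, -, -⟩ := data hr' hr hα H.symm hH'
  obtain ⟨j, hj⟩ := arc hr hr' hα H hH hG hGg
  obtain ⟨j', hj'⟩ := arc hr' hr hα H.symm hH' hG' hGg'
  have hfix : ∀ x : ℝ, oc hr' ((G x : ℝ) : T1) = ((G x : ℝ) : T1) ↔ oc hr (x : T1) = (x : T1) := by
    intro x
    rw [hGg]
    exact (fix_iff hr hr' hα H hH (0, (x : T1))).symm
  have hinj : ∀ x y : ℝ, oc hr (x : T1) = (x : T1) → ((G x : ℝ) : T1) = ((G y : ℝ) : T1) →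
      (x : T1) = (y : T1) := by
    intro x y hx hxy
    exact inj_fix hr hr' hα H hH hx (by rw [← hGg, ← hGg, hxy])
  -- the arc is mapped onto itself
  have hsurj : ∀ y ∈ Icc (1 / 2 : ℝ) 1, ∃ x ∈ Icc (1 / 2 : ℝ) 1, G x = y + j := by
    intro y hy
    have hx := hj' y hy
    have hx1 : G' y - j' ∈ Icc (1 / 2 : ℝ) 1 := ⟨by linarith [hx.1], by linarith [hx.2]⟩
    refine ⟨G' y - j', hx1, ?_⟩
    have e1 : ((G' y - j' : ℝ) : T1) = (H.symm (0, (y : T1))).2 := by
      rw [← hGg' y]
      exact (coe_eq_iff _ _).2 ⟨-j', by push_cast; ring⟩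
    have e2 := const_fix hr hr' hα H hH (fix_arc hr hx1) (H.symm (0, (y : T1))).1
    have e3 : (((H.symm (0, (y : T1))).1, ((G' y - j' : ℝ) : T1)) : T2) = H.symm (0, (y : T1)) := by
      rw [e1]
    rw [e3, H.apply_symm_apply, ← hGg] at e2
    obtain ⟨i, hi⟩ := (coe_eq_iff _ _).1 e2
    have h4 := hj _ hx1
    have h5 : (i : ℝ) + j ≤ 1 / 2 := by linarith [hy.2, h4.1]
    have h6 : -(1 / 2 : ℝ) ≤ (i : ℝ) + j := by linarith [hy.1, h4.2]
    have h7 : i + j = 0 := by
      have h8 : ((i + j : ℤ) : ℝ) < 1 := by push_cast; linarith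
      have h9 : (-1 : ℝ) < ((i + j : ℤ) : ℝ) := by push_cast; linarith
      have h8' : i + j < 1 := by exact_mod_cast h8
      have h9' : -1 < i + j := by exact_mod_cast h9
      omega
    have h10 : (i : ℝ) + j = 0 := by exact_mod_cast h7
    linarith
  have hinjOn : InjOn G (Icc (1 / 2 : ℝ) 1) := by
    intro x hx y hy hxy
    obtain ⟨i, hi⟩ := (coe_eq_iff _ _).1 (hinj x y (fix_arc hr hx) (by rw [hxy]))
    have h8 : (i : ℝ) < 1 := by linarith [hx.2, hy.1]
    have h9 : (-1 : ℝ) < i := by linarith [hx.1, hy.2]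
    have h8' : i < 1 := by exact_mod_cast h8
    have h9' : -1 < i := by exact_mod_cast h9
    have h10 : i = 0 := by omega
    rw [h10] at hi
    simpa using hi
  have hmem1 : (1 / 2 : ℝ) ∈ Icc (1 / 2 : ℝ) 1 := by norm_num
  have hmem2 : (1 : ℝ) ∈ Icc (1 / 2 : ℝ) 1 := by norm_num
  -- no collision between the two halves
  have hcol : ∀ t ∈ Icc (0 : ℝ) (1 / 2), ∀ s ∈ Icc (1 / 2 : ℝ) 1,
      ((G s : ℝ) : T1) = ((G t : ℝ) : T1) → (s = 1 / 2 ∧ t = 1 / 2) ∨ (s = 1 ∧ t = 0) := by
    intro t ht s hs hst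
    obtain ⟨i, hi⟩ := (coe_eq_iff _ _).1 (hinj s t (fix_arc hr hs) hst)
    have h8 : (i : ℝ) ≤ 1 := by linarith [hs.2, ht.1]
    have h9 : (0 : ℝ) ≤ i := by linarith [hs.1, ht.2]
    have h8' : i ≤ 1 := by exact_mod_cast h8
    have h9' : 0 ≤ i := by exact_mod_cast h9
    have h10 : i = 0 ∨ i = 1 := by omega
    rcases h10 with rfl | rfl
    · left
      simp only [Int.cast_zero, add_zero] at hi
      constructor
      · linarith [hs.1, ht.2]
      · linarith [hs.1, ht.2]
    · right
      simp only [Int.cast_one] at hi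
      constructor
      · linarith [hs.2, ht.1]
      · linarith [hs.2, ht.1]
  obtain ⟨i, hi⟩ : ∃ i : ℤ, G 0 = G 1 + i := by
    apply (coe_eq_iff _ _).1
    rw [hGg, hGg]
    have : ((0 : ℝ) : T1) = ((1 : ℝ) : T1) := (coe_eq_iff _ _).2 ⟨-1, by norm_num⟩
    rw [this]
  have h0h : G 0 < G (1 / 2) := hmono 0 (1 / 2) (by norm_num) (fix_zero hr) (by norm_num)
    (fix_half hr) (by norm_num)
  have hnot : ∀ l : ℤ, ¬ (G 0 ≤ 3 / 4 + l ∧ 3 / 4 + l ≤ G (1 / 2)) ∨
      G 0 = 3 / 4 + l ∨ G (1 / 2) = 3 / 4 + l := by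
    intro l
    by_cases hc : (G 0 ≤ 3 / 4 + l ∧ 3 / 4 + l ≤ G (1 / 2))
    swap
    · exact Or.inl hc
    right
    obtain ⟨t, ht, hGt⟩ := intermediate_value_Icc (show (0 : ℝ) ≤ 1 / 2 by norm_num)
      hG.continuousOn hc
    obtain ⟨s, hs, hGs⟩ := hsurj (3 / 4) (by norm_num)
    rcases hcol t ht s hs (by
      rw [hGs, hGt]
      exact (coe_eq_iff _ _).2 ⟨j - l, by push_cast; ring⟩) with ⟨-, h⟩ | ⟨-, h⟩
    · right; rw [← h, hGt]
    · left; rw [← h, hGt]
  have hend : G (1 / 2) = 1 / 2 + j ∧ G 0 = j := by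
    have b1 := hj _ hmem1
    have b2 := hj _ hmem2
    rcases hG.continuousOn.strictMonoOn_of_injOn_Icc' (by norm_num) hinjOn with h | h
    · have e1 : G (1 / 2) = 1 / 2 + j := by
        obtain ⟨x, hx, hGx⟩ := hsurj (1 / 2) hmem1
        have := h.monotoneOn hmem1 hx hx.1
        linarith [b1.1]
      have e2 : G 1 = 1 + j := by
        obtain ⟨x, hx, hGx⟩ := hsurj 1 hmem2
        have := h.monotoneOn hx hmem2 hx.2
        linarith [b2.2]
      refine ⟨e1, ?_⟩
      have h1 : ((1 + j + i : ℤ) : ℝ) < 1 / 2 + j := by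
        push_cast
        linarith
      have h2 : i ≤ -1 := by
        have h3 : (i : ℝ) < 0 := by push_cast at h1; linarith
        have h4 : i < 0 := by exact_mod_cast h3
        omega
      rcases eq_or_lt_of_le h2 with h3 | h3
      · rw [hi, e2, h3]; push_cast; ring
      · exfalso
        have h4 : (i : ℝ) ≤ -2 := by
          have : i ≤ -2 := by omega
          exact_mod_cast this
        rcases hnot (j - 1) with h5 | h5 | h5
        · apply h5
          push_cast
          constructor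
          · rw [hi, e2]; linarith
          · rw [e1]; linarith
        · rw [hi, e2] at h5
          have h6 : ((4 * (i + 2) : ℤ) : ℝ) = ((3 : ℤ) : ℝ) := by
            push_cast at h5 ⊢
            linarith
          have h7 : 4 * (i + 2) = 3 := by exact_mod_cast h6
          omega
        · rw [e1] at h5
          push_cast at h5
          linarith
    · exfalso
      have e1 : G (1 / 2) = 1 + j := by
        obtain ⟨x, hx, hGx⟩ := hsurj 1 hmem2
        have := h.antitoneOn hmem1 hx hx.1
        linarith [b1.2]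
      have e2 : G 1 = 1 / 2 + j := by
        obtain ⟨x, hx, hGx⟩ := hsurj (1 / 2) hmem1
        have := h.antitoneOn hx hmem2 hx.2
        linarith [b2.1]
      have h2 : i ≤ 0 := by
        have h3 : (i : ℝ) < 1 := by
          rw [hi, e1, e2] at h0h
          linarith
        have h4 : i < 1 := by exact_mod_cast h3
        omega
      have h2' : (i : ℝ) ≤ 0 := by exact_mod_cast h2
      rcases hnot j with h5 | h5 | h5
      · apply h5
        constructor
        · rw [hi, e2]; linarith
        · rw [e1]; linarith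
      · rw [hi, e2] at h5
        linarith
      · rw [e1] at h5
        linarith
  obtain ⟨hend1, hend0⟩ := hend
  have hSa : ∀ n, aL r n ∈ Icc (0 : ℝ) (1 / 2) ∧ oc hr ((aL r n : ℝ) : T1) = ((aL r n : ℝ) : T1) := by
    intro n
    have h1 := aL_nonneg r n
    have h2 := aL_le_half hr n
    have h3 := w_pos n
    refine ⟨⟨h1, by linarith⟩, ?_⟩
    have := fix_end0 hr n
    simpa using this
  have hSb : ∀ n, aL r n + w n ∈ Icc (0 : ℝ) (1 / 2) ∧
      oc hr ((aL r n + w n : ℝ) : T1) = ((aL r n + w n : ℝ) : T1) := by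
    intro n
    have h1 := aL_nonneg r n
    have h2 := aL_le_half hr n
    have h3 := w_pos n
    refine ⟨⟨by linarith, by linarith⟩, ?_⟩
    have := fix_end1 hr n
    simpa using this
  have hmj : ∀ n, m n = j := by
    intro n
    have h1 : G 0 ≤ G (aL r n) := by
      rcases eq_or_lt_of_le (hSa n).1.1 with h | h
      · rw [← h]
      · exact (hmono _ _ (by norm_num) (fix_zero hr) (hSa n).1 (hSa n).2 h).le
    have h2 : G (aL r n + w n) ≤ G (1 / 2) := by
      rcases eq_or_lt_of_le (hSb n).1.2 with h | h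
      · rw [h]
      · exact (hmono _ _ (hSb n).1 (hSb n).2 (by norm_num) (fix_half hr) h).le
    rw [hk1, hend0] at h1
    rw [hk2, hend1] at h2
    have h3 := aL_nonneg r' (k n)
    have h4 := aL_le_half hr' (k n)
    have h5 := w_pos (k n)
    have h6 : (m n : ℝ) < j + 1 := by linarith
    have h7 : (j : ℝ) < m n + 1 := by linarith
    have h6' : m n < j + 1 := by exact_mod_cast h6
    have h7' : j < m n + 1 := by exact_mod_cast h7
    omega
  have hkm : ∀ a b, r a b → r' (k a) (k b) := by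
    intro a b hab
    have h1 := aL_add_le hr hab
    have h2 := w_pos b
    have h3 := hmono _ _ (hSb a).1 (hSb a).2 (hSb b).1 (hSb b).2 (by linarith)
    rw [hk2, hk2, hmj, hmj] at h3
    rcases hr'.tot (k a) (k b) with h4 | h4 | h4
    · rw [h4] at h3; exact absurd h3 (lt_irrefl _)
    · exact h4
    · have h5 := aL_add_le hr' h4
      have h6 := w_pos (k a)
      linarith
  have hkinj : Function.Injective k := by
    intro a b hab
    rcases hr.tot a b with h | h | h
    · exact h
    · have := hkm a b h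
      rw [hab] at this
      exact absurd this (hr'.irr _)
    · have := hkm b a h
      rw [hab] at this
      exact absurd this (hr'.irr _)
  have hksurj : Function.Surjective k := by
    intro l
    have hwl := w_pos l
    have hl0 := aL_nonneg r' l
    have hl1 := aL_le_half hr' l
    obtain ⟨t, ht, hGt⟩ := intermediate_value_Icc (show (0 : ℝ) ≤ 1 / 2 by norm_num)
      hG.continuousOn (show aL r' l + w l / 2 + j ∈ Icc (G 0) (G (1 / 2)) from
        ⟨by rw [hend0]; linarith, by rw [hend1]; linarith⟩)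
    have hnf : oc hr (t : T1) ≠ (t : T1) := by
      intro hf
      have h1 := (hfix t).2 hf
      rw [hGt] at h1
      have e : ((aL r' l + w l / 2 + j : ℝ) : T1) = ((aL r' l + w l / 2 : ℝ) : T1) :=
        (coe_eq_iff _ _).2 ⟨j, rfl⟩
      rw [e] at h1
      exact not_fix_slot hr' l (by linarith) (by linarith) h1
    have hsl : ∃ n, aL r n < t ∧ t < aL r n + w n := by
      by_contra hcon
      push Not at hcon
      refine hnf (fix_of_out hr ht.1 (by linarith [ht.2]) fun n => ?_)
      rcases le_or_gt t (aL r n) with h | h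
      · exact Or.inl h
      · exact Or.inr (hcon n h)
    obtain ⟨n, hn1, hn2⟩ := hsl
    have hwn := w_pos n
    have hwk := w_pos (k n)
    have hinside : ∀ t' : ℝ, aL r n < t' → t' < aL r n + w n →
        ∀ e : ℝ, oc hr (e : T1) = (e : T1) → G t' ≠ G e := by
      intro t' h1 h2 e he hte
      refine not_fix_slot hr n h1 h2 ((hfix t').1 ?_)
      rw [hte]
      exact (hfix e).2 he
    have hlt : G (aL r n) < G (aL r n + w n) := by
      rw [hk1, hk2]; linarith
    have hup : G t < G (aL r n + w n) := by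
      by_contra hcon
      push Not at hcon
      obtain ⟨t', ht', hGt'⟩ := intermediate_value_Icc hn1.le hG.continuousOn
        (show G (aL r n + w n) ∈ Icc (G (aL r n)) (G t) from ⟨hlt.le, hcon⟩)
      rcases eq_or_lt_of_le ht'.1 with h | h
      · rw [← h] at hGt'; exact hlt.ne hGt'
      · exact hinside t' h (ht'.2.trans_lt hn2) _ (hSb n).2 hGt'
    have hlo : G (aL r n) < G t := by
      by_contra hcon
      push Not at hcon
      obtain ⟨t', ht', hGt'⟩ := intermediate_value_Icc hn2.le hG.continuousOn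
        (show G (aL r n) ∈ Icc (G t) (G (aL r n + w n)) from ⟨hcon, hlt.le⟩)
      rcases eq_or_lt_of_le ht'.2 with h | h
      · rw [h] at hGt'; exact hlt.ne hGt'.symm
      · exact hinside t' (hn1.trans_le ht'.1) h _ (hSa n).2 hGt'
    rw [hk1, hmj, hGt] at hlo
    rw [hk2, hmj, hGt] at hup
    refine ⟨n, ?_⟩
    rcases hr'.tot (k n) l with h4 | h4 | h4
    · exact h4
    · have := aL_add_le hr' h4
      linarith
    · have := aL_add_le hr' h4
      linarith
  refine ⟨Equiv.ofBijective k ⟨hkinj, hksurj⟩, fun a b => ⟨hkm a b, fun h => ?_⟩⟩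
  rcases hr.tot a b with h1 | h1 | h1
  · rw [h1] at h; exact absurd h (hr'.irr _)
  · exact h1
  · exact absurd (hr'.tr _ _ _ h (hkm _ _ h1)) (hr'.irr _)

end Pool.Agent.H967KS
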