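import Mathlib
import Pool.Agent.H967KS.Iso

/-!
The space of the linear orders on `ℕ`, and the continuous map of it into the Kupka-Smale
diffeomorphisms of the torus.
-/

set_option autoImplicit false

open Set Filter Topology MeasureTheory
open scoped Manifold ContDiff
open Pool.Agent.Helper114.AB Pool.Agent.H410R3.KS

namespace Pool.Agent.H967KS

/-- The space of the strict linear orders on `ℕ`, as a subspace of `2^(ℕ × ℕ)`. -/
def OrderCode : Type := {R : ℕ → ℕ → Bool // (∀ a, R a a = false) ∧
  (∀ a b c, R a b = true → R b c = true → R a c = true) ∧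
  ∀ a b, a ≠ b → R a b = true ∨ R b a = true}

instance : TopologicalSpace OrderCode := instTopologicalSpaceSubtype

/-- `L` and `L'` are isomorphic. -/
def OrderCode.Iso (L L' : OrderCode) : Prop := ∃ π : ℕ ≃ ℕ, ∀ a b, L.1 a b = L'.1 (π a) (π b)

/-- the relation -/
def OrderCode.lt (L : OrderCode) (a b : ℕ) : Prop := L.1 a b = true

theorem OrderCode.sto (L : OrderCode) : STO L.lt where
  irr n := by
    unfold OrderCode.lt
    rw [L.2.1 n]
    simp
  tr l m n h1 h2 := L.2.2.1 l m n h1 h2
  tot m n := by
    by_cases h : m = n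
    · exact Or.inl h
    · exact Or.inr (L.2.2.2 m n h)

theorem OrderCode.iso_iff (L L' : OrderCode) :
    L.Iso L' ↔ ∃ π : ℕ ≃ ℕ, ∀ a b, L.lt a b ↔ L'.lt (π a) (π b) := by
  unfold OrderCode.Iso OrderCode.lt
  constructor
  · rintro ⟨π, h⟩
    exact ⟨π, fun a b => by rw [h]⟩
  · rintro ⟨π, h⟩
    exact ⟨π, fun a b => Bool.eq_iff_iff.2 (h a b)⟩

open Classical in
/-- the code of an order -/
noncomputable def mkLO (R : ℕ → ℕ → Prop) (h : STO R) : OrderCode :=
  ⟨fun a b => decide (R a b), fun a => by simp [h.irr a], fun a b c h1 h2 => by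
    simp only [decide_eq_true_eq] at *
    exact h.tr _ _ _ h1 h2, fun a b hab => by
    simp only [decide_eq_true_eq]
    rcases h.tot a b with h1 | h1 | h1
    · exact absurd h1 hab
    · exact Or.inl h1
    · exact Or.inr h1⟩

theorem mkLO_lt (R : ℕ → ℕ → Prop) (h : STO R) : (mkLO R h).lt = R := by
  funext a b
  unfold OrderCode.lt mkLO
  simp

theorem ctr_cont : Continuous (fun L : OrderCode => ctr L.sto) := by
  classical
  refine continuous_pi fun n => Continuous.subtype_mk ?_ _
  refine Continuous.add ?_ continuous_const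
  unfold aL
  refine continuous_tsum (u := w) (fun m => ?_) w_summable' (fun m L => ?_)
  · have h1 : Continuous (fun L : OrderCode => L.1 m n) :=
      (continuous_apply n).comp ((continuous_apply m).comp continuous_subtype_val)
    have h2 : Continuous (fun b : Bool => if b = true then w m else 0) :=
      continuous_of_discreteTopology
    have h3 := h2.comp h1
    convert h3 using 2 with L
    show (if L.lt m n then w m else 0) = if L.1 m n = true then w m else 0
    by_cases h : L.1 m n = true
    · rw [if_pos h, if_pos (show L.lt m n from h)]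
    · rw [if_neg h, if_neg (show ¬ L.lt m n from h)]
  · split_ifs
    · rw [Real.norm_of_nonneg (w_nonneg' m)]
    · rw [norm_zero]; exact w_nonneg' m

/-- The diffeomorphism `(θ, x) ↦ (θ + √2, f_L(x))` of the torus. -/
noncomputable def Phi (r : ℕ∞) (L : OrderCode) : KSDiff II CC r :=
  toKS irrational_sqrt_two r (emb (ctr L.sto))

theorem Phi_cont (r : ℕ∞) : Continuous (Phi r) :=
  (toKS_continuous irrational_sqrt_two r).comp (emb_continuous.comp ctr_cont)

theorem Phi_iff (r : ℕ∞) (L L' : OrderCode) :
    TopConj (Phi r L).1.map (Phi r L').1.map ↔ L.Iso L' := by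
  unfold Phi
  rw [conj_iff, OrderCode.iso_iff]
  constructor
  · rintro ⟨H, hH⟩
    exact iso L.sto L'.sto irrational_sqrt_two H hH
  · rintro ⟨π, hπ⟩
    obtain ⟨κ, hκ⟩ := fwd L.sto L'.sto π hπ
    refine ⟨(Homeomorph.refl T1).prodCongr κ, fun q => ?_⟩
    refine Prod.ext rfl ?_
    exact hκ q.2

end Pool.Agent.H967KS
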