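import Mathlib
import Pool.Agent.H967KS.LO

/-!
Every analytic subset of the Baire space is reduced to the isomorphism of linear orders.
-/

set_option autoImplicit false

open Set Filter Topology MeasureTheory
open Pool.Agent.Helper114.AB

namespace Pool.Agent.H967KS

section

variable {X A : Type} [TopologicalSpace X]

open Classical in
theorem ex_cont {L : X → A → A → Prop} (hL : ∀ a b, Continuous (fun x => decide (L x a b)))
    (g h : A →₀ ℕ) : Continuous (fun x => decide (Ex (L x) g h)) := by
  let S : Finset A := g.support ∪ h.support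
  let F : (S × S → Bool) → Bool := fun β =>
    decide (∃ a : S, g a < h a ∧ ∀ b : S, β (a, b) = true → g b = h b)
  have hF : Continuous F := continuous_of_discreteTopology
  have hb : Continuous (fun (x : X) (p : S × S) => decide (L x p.1 p.2)) :=
    continuous_pi fun p => hL p.1 p.2
  have h1 : (fun x => decide (Ex (L x) g h)) = fun x => F (fun p => decide (L x p.1 p.2)) := by
    funext x
    show decide _ = decide _
    congr 1
    apply propext
    constructor
    · rintro ⟨a, ha, ha'⟩
      have haS : a ∈ S := by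
        refine Finset.mem_union_right _ ?_
        rw [Finsupp.mem_support_iff]
        omega
      refine ⟨⟨a, haS⟩, ha, fun b hb => ?_⟩
      simp only [decide_eq_true_eq] at hb
      exact ha' _ hb
    · rintro ⟨a, ha, ha'⟩
      refine ⟨a, ha, fun b hb => ?_⟩
      by_cases hbS : b ∈ S
      · exact ha' ⟨b, hbS⟩ (by simpa using hb)
      · have h2 : b ∉ g.support := fun h => hbS (Finset.mem_union_left _ h)
        have h3 : b ∉ h.support := fun h => hbS (Finset.mem_union_right _ h)
        rw [Finsupp.notMem_support_iff] at h2 h3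
        rw [h2, h3]
  rw [h1]
  exact hF.comp hb

open Classical in
theorem ex2_cont {L : X → A → A → Prop} (hL : ∀ a b, Continuous (fun x => decide (L x a b)))
    (p q : WithBot ℚ × (A →₀ ℕ)) : Continuous (fun x => decide (Ex2 (L x) p q)) := by
  let F : Bool → Bool := fun β => decide (p.1 < q.1 ∨ (p.1 = q.1 ∧ β = true))
  have hF : Continuous F := continuous_of_discreteTopology
  have h1 : (fun x => decide (Ex2 (L x) p q)) = fun x => F (decide (Ex (L x) p.2 q.2)) := by
    funext x
    show decide _ = decide _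
    congr 1
    apply propext
    unfold Ex2
    simp only [decide_eq_true_eq]
  rw [h1]
  exact hF.comp (ex_cont hL p.2 q.2)

end

/-- the sets of finite sequences -/
def st (T : List ℕ → Bool) : Set (List ℕ) := {s | T s = true}

open Classical in
/-- Two continuous maps of the sets of finite sequences into the linear orders, such that for every
tree `T` the images are isomorphic exactly when `T` has an infinite branch. -/
theorem red : ∃ F1 F2 : (List ℕ → Bool) → OrderCode, Continuous F1 ∧ Continuous F2 ∧
    ∀ T : List ℕ → Bool, (∀ s t, s <+: t → t ∈ st T → s ∈ st T) →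
      ((F1 T).Iso (F2 T) ↔ ∃ v : ℕ → ℕ, ∀ n, List.ofFn (fun i : Fin n => v i) ∈ st T) := by
  obtain ⟨L, hL1, hL2, hL3⟩ := kleene_brouwer
  have i1 : Infinite (List ℕ →₀ ℕ) :=
    Infinite.of_injective (fun n => Finsupp.single [] n) (Finsupp.single_injective [])
  have i2 : Infinite (WithBot ℚ × (List ℕ →₀ ℕ)) :=
    Infinite.of_injective (fun f => (⊥, f)) (fun f g h => (Prod.mk.inj h).2)
  have i3 : Countable (WithBot ℚ) := inferInstanceAs (Countable (Option ℚ))
  obtain ⟨e1⟩ : Nonempty ((List ℕ →₀ ℕ) ≃ ℕ) := nonempty_equiv_of_countable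
  obtain ⟨e2⟩ : Nonempty ((WithBot ℚ × (List ℕ →₀ ℕ)) ≃ ℕ) := nonempty_equiv_of_countable
  have hLc : ∀ a b, Continuous (fun T : List ℕ → Bool => decide (L (st T) a b)) := by
    intro a b
    obtain ⟨Q, hQ⟩ := hL3 a b
    let F : Bool × Bool → Bool := fun β => decide (Q (β.1 = true) (β.2 = true))
    have hF : Continuous F := continuous_of_discreteTopology
    have h : (fun T : List ℕ → Bool => decide (L (st T) a b)) = fun T => F (T a, T b) := by
      funext T
      show decide _ = decide _
      congr 1
      exact propext (hQ (st T))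
    rw [h]
    exact hF.comp ((continuous_apply a).prodMk (continuous_apply b))
  let R1 : (List ℕ → Bool) → ℕ → ℕ → Prop := fun T m n => Ex (L (st T)) (e1.symm m) (e1.symm n)
  let R2 : (List ℕ → Bool) → ℕ → ℕ → Prop := fun T m n => Ex2 (L (st T)) (e2.symm m) (e2.symm n)
  have s1 : ∀ T, STO (R1 T) := fun T => ord_sto (Ex_sto (hL1 (st T))) e1.symm
  have s2 : ∀ T, STO (R2 T) := fun T => ord_sto (Ex2_sto (hL1 (st T))) e2.symm
  refine ⟨fun T => mkLO (R1 T) (s1 T), fun T => mkLO (R2 T) (s2 T), ?_, ?_, ?_⟩
  · refine Continuous.subtype_mk (continuous_pi fun m => continuous_pi fun n => ?_) _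
    exact ex_cont hLc _ _
  · refine Continuous.subtype_mk (continuous_pi fun m => continuous_pi fun n => ?_) _
    exact ex2_cont hLc _ _
  · intro T hT
    rw [OrderCode.iso_iff]
    simp only [mkLO_lt]
    constructor
    · rintro ⟨π, hπ⟩
      by_contra hno
      have hw : WellFounded (L (st T)) := (hL2 (st T) hT).mpr hno
      have hw1 : WellFounded (R1 T) := InvImage.wf e1.symm (Ex_wf (hL1 (st T)) hw)
      have hw2 : WellFounded (R2 T) := by
        have h3 : R2 T = InvImage (R1 T) π.symm := by
          funext m n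
          apply propext
          show R2 T m n ↔ R1 T (π.symm m) (π.symm n)
          rw [hπ, Equiv.apply_symm_apply, Equiv.apply_symm_apply]
        rw [h3]
        exact InvImage.wf π.symm hw1
      obtain ⟨S, hS⟩ := Ex2_dl (hL1 (st T))
      obtain ⟨hS1, hS2⟩ := ord_dl hS e2
      obtain ⟨s, hs, hmin⟩ := hw2.has_min _ hS1
      obtain ⟨⟨m, hm⟩, h3⟩ := hS2 s hs
      obtain ⟨s', hs', -, h4⟩ := h3 m hm
      exact hmin s' hs' h4
    · intro hb
      have hw : ¬ WellFounded (L (st T)) := fun h => (hL2 (st T) hT).mp h hb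
      obtain ⟨e, he⟩ := Ex_iso (hL1 (st T)) hw
      refine ⟨e1.symm.trans (e.trans e2), fun m n => ?_⟩
      show Ex (L (st T)) (e1.symm m) (e1.symm n) ↔ Ex2 (L (st T)) (e2.symm _) (e2.symm _)
      simp only [Equiv.trans_apply, Equiv.symm_apply_apply]
      exact he _ _

open Classical in
/-- the tree of the attempts to solve `f y = x` -/
noncomputable def tr (f : (ℕ → ℕ) → (ℕ → ℕ)) (x : ℕ → ℕ) : List ℕ → Bool :=
  fun s => decide (∃ y : ℕ → ℕ, (∀ i (h : i < s.length), s[i] = y i) ∧ ∀ k < s.length, f y k = x k)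

theorem tr_iff (f : (ℕ → ℕ) → (ℕ → ℕ)) (x : ℕ → ℕ) (s : List ℕ) :
    s ∈ st (tr f x) ↔
      ∃ y : ℕ → ℕ, (∀ i (h : i < s.length), s[i] = y i) ∧ ∀ k < s.length, f y k = x k := by
  unfold st tr
  simp only [mem_ofPred_eq, decide_eq_true_eq]

theorem tr_prefix (f : (ℕ → ℕ) → (ℕ → ℕ)) (x : ℕ → ℕ) (s t : List ℕ) (h : s <+: t)
    (ht : t ∈ st (tr f x)) : s ∈ st (tr f x) := by
  rw [tr_iff] at ht ⊢
  obtain ⟨y, h1, h2⟩ := ht
  have hl := h.length_le
  refine ⟨y, fun i hi => ?_, fun k hk => h2 k (hk.trans_le hl)⟩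
  rw [h.getElem hi]
  exact h1 i _

theorem tr_branch {f : (ℕ → ℕ) → (ℕ → ℕ)} (hf : Continuous f) (x : ℕ → ℕ) :
    (∃ v : ℕ → ℕ, ∀ n, List.ofFn (fun i : Fin n => v i) ∈ st (tr f x)) ↔ x ∈ range f := by
  constructor
  · rintro ⟨v, hv⟩
    choose y hy1 hy2 using fun n => (tr_iff f x _).mp (hv n)
    have hy1' : ∀ n i, i < n → v i = y n i := by
      intro n i hi
      have := hy1 n i (by simpa using hi)
      simpa using this
    have hlim : Tendsto y atTop (𝓝 v) := by
      rw [tendsto_pi_nhds]
      intro k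
      apply tendsto_const_nhds.congr'
      filter_upwards [eventually_gt_atTop k] with n hn
      exact hy1' n k hn
    have h2 : Tendsto (fun n => f (y n)) atTop (𝓝 (f v)) := (hf.tendsto v).comp hlim
    refine ⟨v, ?_⟩
    funext k
    rw [tendsto_pi_nhds] at h2
    refine tendsto_nhds_unique (h2 k) ?_
    apply tendsto_const_nhds.congr'
    filter_upwards [eventually_gt_atTop k] with n hn
    exact (hy2 n k (by simpa using hn)).symm
  · rintro ⟨y, rfl⟩
    refine ⟨y, fun n => ?_⟩
    rw [tr_iff]
    exact ⟨y, fun i hi => by simp, fun k _ => rfl⟩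

theorem tr_cont (f : (ℕ → ℕ) → (ℕ → ℕ)) : Continuous (tr f) := by
  classical
  apply continuous_pi
  intro s
  let g : (Fin s.length → ℕ) → Bool := fun z =>
    decide (∃ y : ℕ → ℕ, (∀ i (h : i < s.length), s[i] = y i) ∧ ∀ k : Fin s.length, f y k = z k)
  have hg : Continuous g := continuous_of_discreteTopology
  have hr : Continuous (fun (x : ℕ → ℕ) (k : Fin s.length) => x k) :=
    continuous_pi fun k => continuous_apply (k : ℕ)
  have h1 : (fun x => tr f x s) = fun x => g (fun k : Fin s.length => x k) := by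
    funext x
    show decide _ = decide _
    congr 1
    apply propext
    constructor
    · rintro ⟨y, hy, hy'⟩
      exact ⟨y, hy, fun k => hy' k k.2⟩
    · rintro ⟨y, hy, hy'⟩
      exact ⟨y, hy, fun k hk => hy' ⟨k, hk⟩⟩
  rw [h1]
  exact hg.comp hr

/-- Every analytic subset of the Baire space is reduced, continuously, to the isomorphism of linear
orders. -/
theorem analytic_red (A : Set (ℕ → ℕ)) (hA : AnalyticSet A) :
    ∃ G1 G2 : (ℕ → ℕ) → OrderCode, Continuous G1 ∧ Continuous G2 ∧
      ∀ x, (G1 x).Iso (G2 x) ↔ x ∈ A := by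
  obtain ⟨F1, F2, hF1, hF2, hF⟩ := red
  rw [AnalyticSet] at hA
  rcases hA with hA | ⟨f, hf, hr⟩
  · refine ⟨fun _ => F1 (fun _ => false), fun _ => F2 (fun _ => false), continuous_const,
      continuous_const, fun x => ?_⟩
    rw [hF _ (fun s t _ ht => by simp [st] at ht), hA]
    constructor
    · rintro ⟨v, hv⟩
      have := hv 0
      simp [st] at this
    · intro hx
      exact absurd hx (notMem_empty x)
  · refine ⟨fun x => F1 (tr f x), fun x => F2 (tr f x), hF1.comp (tr_cont f),
      hF2.comp (tr_cont f), fun x => ?_⟩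
    rw [hF _ (tr_prefix f x), tr_branch hf, hr]

end Pool.Agent.H967KS
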