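import Mathlib
import Pool.Agent.H967KS.Tree

/-!
The complement of the conjugacy relation is not analytic.
-/

set_option autoImplicit false

open Set Filter Topology MeasureTheory
open scoped Manifold ContDiff
open Pool.Agent.Helper114.AB Pool.Agent.H410R3.KS

namespace Pool.Agent.H967KS

theorem eval_cont (r : ℕ∞) (z : CC) : Continuous (fun f : KSDiff II CC r => f.1.map z) := by
  rw [continuous_iff_continuousAt]
  intro f U hU
  set y : CC := f.1.map z with hy
  have hV : (extChartAt II y).target ∩ (extChartAt II y).symm ⁻¹' U ∈ 𝓝 (extChartAt II y y) := by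
    apply inter_mem (extChartAt_target_mem_nhds y)
    apply (continuousAt_extChartAt_symm y).preimage_mem_nhds
    rw [extChartAt_to_inv]
    exact hU
  obtain ⟨ε, hε, hball⟩ := Metric.mem_nhds_iff.1 hV
  have hopen0 : IsOpen[crTopology II CC r] (basicNhd II f.1 z y {z} 0 ε) := by
    apply TopologicalSpace.isOpen_generateFrom_of_mem
    refine ⟨f.1, z, y, {z}, 0, ε, isCompact_singleton, ?_, ?_, by simp, hε, rfl⟩
    · rw [singleton_subset_iff]
      exact mem_chart_source _ z
    · intro x hx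
      rw [mem_singleton_iff] at hx
      rw [hx]
      exact mem_chart_source _ y
  have hopen : IsOpen {g : KSDiff II CC r | g.1 ∈ basicNhd II f.1 z y {z} 0 ε} :=
    ⟨_, hopen0, rfl⟩
  have hmem : f ∈ {g : KSDiff II CC r | g.1 ∈ basicNhd II f.1 z y {z} 0 ε} := by
    refine ⟨?_, fun x _ j _ => by rw [sub_self, norm_zero]; exact hε⟩
    intro x hx
    rw [mem_singleton_iff] at hx
    rw [hx]
    exact mem_chart_source _ y
  refine mem_map.2 (mem_of_superset (hopen.mem_nhds hmem) ?_)
  rintro g ⟨h1, h2⟩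
  have h3 := h2 z rfl 0 le_rfl
  have h4 := (iteratedFDeriv ℝ 0 (localRep II z y g.1.map) (extChartAt II z z) -
    iteratedFDeriv ℝ 0 (localRep II z y f.1.map) (extChartAt II z z)).le_opNorm (fun i => 0)
  rw [sub_apply, iteratedFDeriv_zero_apply, iteratedFDeriv_zero_apply] at h4
  simp only [Finset.univ_eq_empty, Finset.prod_empty, mul_one, localRep, extChartAt_to_inv] at h4
  have h5 : extChartAt II y (g.1.map z) ∈ Metric.ball (extChartAt II y y) ε := by
    rw [mem_ball_iff_norm]
    exact h4.trans_lt h3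
  have h6 := (hball h5).2
  rw [mem_preimage, (extChartAt II y).left_inv (by
    rw [extChartAt_source]
    exact h1 rfl)] at h6
  exact h6

instance t2_ks (r : ℕ∞) : T2Space (KSDiff II CC r) := by
  refine T2Space.of_injective_continuous (f := fun (g : KSDiff II CC r) (z : CC) => g.1.map z) ?_
    (continuous_pi fun z => eval_cont r z)
  intro g g' h
  apply Subtype.ext
  apply Diffeomorph.toEquiv_injective
  exact Equiv.coe_fn_injective h

/-- there is an analytic set with a complement that is not analytic -/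
theorem exists_an : ∃ A : Set (ℕ → ℕ), AnalyticSet A ∧ ¬ AnalyticSet Aᶜ := by
  obtain ⟨T, -, hT2, hT3⟩ := nonborel
  have hA : AnalyticSet {y | ∃ v : ℕ → ℕ, ∀ n, List.ofFn (fun i : Fin n => v i) ∈ T y} := by
    have hB : MeasurableSet {p : (ℕ → ℕ) × (ℕ → ℕ) | ∀ n, List.ofFn (fun i : Fin n => p.2 i) ∈ T p.1} := by
      have e : {p : (ℕ → ℕ) × (ℕ → ℕ) | ∀ n, List.ofFn (fun i : Fin n => p.2 i) ∈ T p.1} =
          ⋂ n : ℕ, ⋃ s : List ℕ, {p | List.ofFn (fun i : Fin n => p.2 i) = s} ∩ {p | s ∈ T p.1} := by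
        ext p
        simp only [mem_iInter, mem_iUnion, mem_inter_iff, mem_ofPred_eq]
        constructor
        · intro h n
          exact ⟨_, rfl, h n⟩
        · intro h n
          obtain ⟨s, h1, h2⟩ := h n
          rw [h1]
          exact h2
      rw [e]
      refine MeasurableSet.iInter fun n => MeasurableSet.iUnion fun s => MeasurableSet.inter ?_ ?_
      · have hc : Continuous (fun p : (ℕ → ℕ) × (ℕ → ℕ) => fun i : Fin n => p.2 i) :=
          continuous_pi fun i => (continuous_apply (i : ℕ)).comp continuous_snd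
        have h2 : {p : (ℕ → ℕ) × (ℕ → ℕ) | List.ofFn (fun i : Fin n => p.2 i) = s} =
            (fun p : (ℕ → ℕ) × (ℕ → ℕ) => fun i : Fin n => p.2 i) ⁻¹' {v | List.ofFn v = s} := rfl
        rw [h2]
        exact ((isOpen_discrete _).preimage hc).measurableSet
      · exact measurable_fst (hT2 s)
    have h3 := hB.analyticSet.image_of_continuous continuous_fst
    convert h3 using 1
    ext y
    simp only [mem_ofPred_eq, mem_image]
    constructor
    · rintro ⟨v, hv⟩
      exact ⟨(y, v), hv, rfl⟩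
    · rintro ⟨⟨y', v⟩, hv, rfl⟩
      exact ⟨v, hv⟩
  exact ⟨_, hA, fun h => hT3 (hA.measurableSet_of_compl h)⟩

theorem hard (r : ℕ∞) (A : Set (ℕ → ℕ)) (hA : AnalyticSet A) :
    ∃ Ψ : (ℕ → ℕ) → KSDiff II CC r × KSDiff II CC r, Continuous Ψ ∧
      Ψ ⁻¹' {p | TopConj p.1.1.map p.2.1.map} = A := by
  obtain ⟨G1, G2, h1, h2, h3⟩ := analytic_red A hA
  refine ⟨fun x => (Phi r (G1 x), Phi r (G2 x)),
    ((Phi_cont r).comp h1).prodMk ((Phi_cont r).comp h2), ?_⟩
  ext x
  exact (Phi_iff r (G1 x) (G2 x)).trans (h3 x)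

theorem compl_not_analytic (r : ℕ∞) :
    ¬ AnalyticSet {p : KSDiff II CC r × KSDiff II CC r | ¬ TopConj p.1.1.map p.2.1.map} := by
  intro h
  obtain ⟨A, hA, hAc⟩ := exists_an
  obtain ⟨Ψ, hΨ, hpre⟩ := hard r A hA
  apply hAc
  have h1 := h.preimage hΨ
  rw [← hpre]
  exact h1

end Pool.Agent.H967KS
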