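import Mathlib
import Pool.Agent.W919.CB.Colour
import Pool.Agent.W919.CB.Decode

/-!
Isomorphism of countable graphs (binary relations on `ℕ`) is Borel reducible to isomorphism of
linear orders (Friedman, Stanley), by bisimilarity of the systems of finite tuples.
-/

set_option autoImplicit false

open Set MeasureTheory Pool.Agent.W919.CB

namespace Pool.Agent.H967KS

/-- isomorphism of binary relations on `ℕ` -/
def IsoRel (G G' : ℕ × ℕ → Bool) : Prop := ∃ π : ℕ ≃ ℕ, ∀ a b, G (a, b) = G' (π a, π b)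

/-- the atomic type of a tuple -/
def aty (G : ℕ × ℕ → Bool) (s : List ℕ) : ℕ :=
  Encodable.encode (s.map fun a => s.map fun b => (decide (a = b), G (a, b)))

theorem aty_eq {G G' : ℕ × ℕ → Bool} {s s' : List ℕ} (h : aty G s = aty G' s')
    {i j : ℕ} (hi : i < s.length) (hj : j < s.length) (hi' : i < s'.length) (hj' : j < s'.length) :
    (s[i] = s[j] ↔ s'[i] = s'[j]) ∧ G (s[i], s[j]) = G' (s'[i], s'[j]) := by
  have h1 := Encodable.encode_injective h
  have h2 : (s.map fun a => s.map fun b => (decide (a = b), G (a, b)))[i]'(by simpa using hi) =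
      (s'.map fun a => s'.map fun b => (decide (a = b), G' (a, b)))[i]'(by simpa using hi') := by
    simp only [h1]
  rw [List.getElem_map, List.getElem_map] at h2
  have h3 : (s.map fun b => (decide (s[i] = b), G (s[i], b)))[j]'(by simpa using hj) =
      (s'.map fun b => (decide (s'[i] = b), G' (s'[i], b)))[j]'(by simpa using hj') := by
    simp only [h2]
  rw [List.getElem_map, List.getElem_map, Prod.mk.injEq] at h3
  exact ⟨by simpa using h3.1, h3.2⟩

theorem aty_map {G G' : ℕ × ℕ → Bool} {π : ℕ ≃ ℕ} (hπ : ∀ a b, G (a, b) = G' (π a, π b))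
    (s : List ℕ) : aty G' (s.map π) = aty G s := by
  unfold aty
  rw [List.map_map]
  congr 1
  refine List.map_congr_left fun a _ => ?_
  simp only [Function.comp, List.map_map]
  refine List.map_congr_left fun b _ => ?_
  simp only [Function.comp, hπ a b, π.injective.eq_iff]

/-- states of the system: a dead state, or a tuple with a code of its atomic type -/
abbrev SS : Type := Option (List ℕ × ℕ)

/-- labels -/
def lab : SS → ℕ
  | none => 0
  | some p => p.2 + 1

/-- transitions: add an element to the tuple -/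
def trn (G : ℕ × ℕ → Bool) (x y : SS) : Prop :=
  y = none ∨ ∃ (s : List ℕ) (t b : ℕ), x = some (s, t) ∧ y = some (s ++ [b], aty G (s ++ [b]))

/-- the initial state -/
def top0 : SS := some ([], 0)

theorem bis_of_iso {G G' : ℕ × ℕ → Bool} (h : IsoRel G G') :
    Bis lab lab (trn G) (trn G') top0 top0 := by
  obtain ⟨π, hπ⟩ := h
  refine ⟨fun x y => (x = none ∧ y = none) ∨
    ∃ (s : List ℕ) (t : ℕ), x = some (s, t) ∧ y = some (s.map π, t), ?_, Or.inr ⟨[], 0, rfl, rfl⟩⟩
  rintro x y (⟨rfl, rfl⟩ | ⟨s, t, rfl, rfl⟩)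
  · refine ⟨rfl, ?_, ?_⟩
    · rintro x' (rfl | ⟨s, t, b, h, -⟩)
      · exact ⟨none, Or.inl rfl, Or.inl ⟨rfl, rfl⟩⟩
      · exact absurd h (by simp)
    · rintro y' (rfl | ⟨s, t, b, h, -⟩)
      · exact ⟨none, Or.inl rfl, Or.inl ⟨rfl, rfl⟩⟩
      · exact absurd h (by simp)
  · refine ⟨rfl, ?_, ?_⟩
    · rintro x' (rfl | ⟨s', t', b, h, rfl⟩)
      · exact ⟨none, Or.inl rfl, Or.inl ⟨rfl, rfl⟩⟩
      · obtain ⟨rfl, rfl⟩ := Prod.mk.inj (Option.some.inj h)
        refine ⟨some (s.map π ++ [π b], aty G' (s.map π ++ [π b])),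
          Or.inr ⟨_, _, π b, rfl, rfl⟩, Or.inr ⟨s ++ [b], aty G (s ++ [b]), rfl, ?_⟩⟩
        have e : s.map π ++ [π b] = (s ++ [b]).map π := by simp
        rw [e, aty_map hπ]
    · rintro y' (rfl | ⟨s', t', b, h, rfl⟩)
      · exact ⟨none, Or.inl rfl, Or.inl ⟨rfl, rfl⟩⟩
      · obtain ⟨rfl, rfl⟩ := Prod.mk.inj (Option.some.inj h)
        refine ⟨some (s ++ [π.symm b], aty G (s ++ [π.symm b])),
          Or.inr ⟨_, _, π.symm b, rfl, rfl⟩, Or.inr ⟨s ++ [π.symm b], aty G (s ++ [π.symm b]),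
          rfl, ?_⟩⟩
        have e : s.map π ++ [b] = (s ++ [π.symm b]).map π := by simp
        rw [e, aty_map hπ]

theorem iso_of_bis {G G' : ℕ × ℕ → Bool} (h : Bis lab lab (trn G) (trn G') top0 top0) :
    IsoRel G G' := by
  classical
  obtain ⟨R, hR, hR0⟩ := h
  -- the back-and-forth relation
  let B : List ℕ → List ℕ → Prop := fun s s' => s.length = s'.length ∧ aty G s = aty G' s' ∧
    ∃ t t', R (some (s, t)) (some (s', t'))
  have hB0 : B [] [] := ⟨rfl, rfl, 0, 0, hR0⟩
  have hforth : ∀ s s', B s s' → ∀ b, ∃ b', B (s ++ [b]) (s' ++ [b']) := by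
    rintro s s' ⟨hl, -, t, t', hst⟩ b
    obtain ⟨-, h1, -⟩ := hR _ _ hst
    obtain ⟨y, hy, hRy⟩ := h1 (some (s ++ [b], aty G (s ++ [b]))) (Or.inr ⟨s, t, b, rfl, rfl⟩)
    have hlab := (hR _ _ hRy).1
    rcases hy with rfl | ⟨s1, t1, b', h2, rfl⟩
    · simp [lab] at hlab
    · obtain ⟨rfl, rfl⟩ := Prod.mk.inj (Option.some.inj h2)
      refine ⟨b', by simp [hl], ?_, _, _, hRy⟩
      simpa [lab] using hlab
  have hback : ∀ s s', B s s' → ∀ b', ∃ b, B (s ++ [b]) (s' ++ [b']) := by
    rintro s s' ⟨hl, -, t, t', hst⟩ b'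
    obtain ⟨-, -, h1⟩ := hR _ _ hst
    obtain ⟨x, hx, hRx⟩ := h1 (some (s' ++ [b'], aty G' (s' ++ [b']))) (Or.inr ⟨s', t', b', rfl, rfl⟩)
    have hlab := (hR _ _ hRx).1
    rcases hx with rfl | ⟨s1, t1, b, h2, rfl⟩
    · simp [lab] at hlab
    · obtain ⟨rfl, rfl⟩ := Prod.mk.inj (Option.some.inj h2)
      refine ⟨b, by simp [hl], ?_, _, _, hRx⟩
      simpa [lab] using hlab
  -- one step
  have hstep : ∀ (n : ℕ) (p : {p : List ℕ × List ℕ // B p.1 p.2}),
      ∃ q : ℕ × ℕ, B (p.1.1 ++ [q.1]) (p.1.2 ++ [q.2]) ∧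
        (n % 2 = 0 → q.1 = n / 2) ∧ (n % 2 = 1 → q.2 = n / 2) := by
    intro n p
    rcases Nat.mod_two_eq_zero_or_one n with h | h
    · obtain ⟨b', hb'⟩ := hforth _ _ p.2 (n / 2)
      exact ⟨(n / 2, b'), hb', fun _ => rfl, fun h' => by omega⟩
    · obtain ⟨b, hb⟩ := hback _ _ p.2 (n / 2)
      exact ⟨(b, n / 2), hb, fun h' => by omega, fun _ => rfl⟩
  choose q hq1 hq2 hq3 using hstep
  let F : ℕ → {p : List ℕ × List ℕ // B p.1 p.2} := fun n =>
    Nat.rec ⟨([], []), hB0⟩ (fun n p => ⟨(p.1.1 ++ [(q n p).1], p.1.2 ++ [(q n p).2]), hq1 n p⟩) n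
  have hF : ∀ n, (F (n + 1)).1 = ((F n).1.1 ++ [(q n (F n)).1], (F n).1.2 ++ [(q n (F n)).2]) :=
    fun n => rfl
  let u : ℕ → ℕ := fun n => (q n (F n)).1
  let v : ℕ → ℕ := fun n => (q n (F n)).2
  have hFu : ∀ n, (F n).1.1 = (List.range n).map u ∧ (F n).1.2 = (List.range n).map v := by
    intro n
    induction n with
    | zero => exact ⟨rfl, rfl⟩
    | succ n ih =>
      rw [hF, List.range_succ, List.map_append, List.map_append, ih.1, ih.2]
      exact ⟨rfl, rfl⟩
  have key : ∀ i j, (u i = u j ↔ v i = v j) ∧ G (u i, u j) = G' (v i, v j) := by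
    intro i j
    have h1 := (F (i + j + 1)).2.2.1
    rw [(hFu (i + j + 1)).1, (hFu (i + j + 1)).2] at h1
    have h2 := aty_eq h1 (i := i) (j := j) (by simp) (by simp) (by simp) (by simp)
    simpa using h2
  have hu : Function.Surjective u := by
    intro a
    refine ⟨2 * a, ?_⟩
    have := hq2 (2 * a) (F (2 * a)) (by omega)
    show (q (2 * a) (F (2 * a))).1 = a
    omega
  have hv : Function.Surjective v := by
    intro a
    refine ⟨2 * a + 1, ?_⟩
    have := hq3 (2 * a + 1) (F (2 * a + 1)) (by omega)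
    show (q (2 * a + 1) (F (2 * a + 1))).2 = a
    omega
  choose i hi using hu
  have hbij : Function.Bijective (fun a => v (i a)) := by
    constructor
    · intro a b hab
      have := ((key (i a) (i b)).1).2 hab
      rwa [hi, hi] at this
    · intro b
      obtain ⟨j, hj⟩ := hv b
      refine ⟨u j, ?_⟩
      have := ((key (i (u j)) j).1).1 (hi (u j))
      exact this.trans hj
  refine ⟨Equiv.ofBijective _ hbij, fun a b => ?_⟩
  have := (key (i a) (i b)).2
  rw [hi, hi] at this
  exact this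

theorem bis_iff (G G' : ℕ × ℕ → Bool) :
    Bis lab lab (trn G) (trn G') top0 top0 ↔ IsoRel G G' := ⟨iso_of_bis, bis_of_iso⟩

theorem meas_trn (x y : SS) : MeasurableSet {G : ℕ × ℕ → Bool | trn G x y} := by
  have hm : ∀ s : List ℕ, ∀ t : ℕ, MeasurableSet {G : ℕ × ℕ → Bool | aty G s = t} := by
    intro s t
    have h1 : Continuous (fun (G : ℕ × ℕ → Bool) (p : {a // a ∈ s} × {a // a ∈ s}) =>
        G (p.1.1, p.2.1)) := continuous_pi fun p => continuous_apply _
    let F : ({a // a ∈ s} × {a // a ∈ s} → Bool) → ℕ := fun g =>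
      Encodable.encode (s.attach.map fun a => s.attach.map fun b => (decide (a.1 = b.1), g (a, b)))
    have hF : Continuous F := continuous_of_discreteTopology
    have h2 : (fun G : ℕ × ℕ → Bool => aty G s) =
        fun G => F (fun p => G (p.1.1, p.2.1)) := by
      funext G
      unfold aty
      show _ = Encodable.encode _
      congr 1
      rw [← List.attach_map_val (l := s) (f := fun a => s.map fun b => (decide (a = b), G (a, b)))]
      refine List.map_congr_left fun a _ => ?_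
      exact (List.attach_map_val (l := s) (f := fun b => (decide (a.1 = b), G (a.1, b)))).symm
    have h3 : {G : ℕ × ℕ → Bool | aty G s = t} =
        (fun G : ℕ × ℕ → Bool => F (fun p => G (p.1.1, p.2.1))) ⁻¹' {t} := by
      rw [← h2]
      rfl
    rw [h3]
    exact ((isOpen_discrete _).preimage (hF.comp h1)).measurableSet
  have h4 : {G : ℕ × ℕ → Bool | trn G x y} = {_G | y = none} ∪
      ⋃ (s : List ℕ) (t : ℕ) (b : ℕ) (t' : ℕ), ({_G | x = some (s, t) ∧ y = some (s ++ [b], t')} ∩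
        {G : ℕ × ℕ → Bool | aty G (s ++ [b]) = t'}) := by
    ext G
    simp only [trn, mem_union, mem_iUnion, mem_inter_iff, mem_ofPred_eq]
    constructor
    · rintro (h | ⟨s, t, b, h1, h2⟩)
      · exact Or.inl h
      · exact Or.inr ⟨s, t, b, _, ⟨h1, h2⟩, rfl⟩
    · rintro (h | ⟨s, t, b, t', ⟨h1, h2⟩, h3⟩)
      · exact Or.inl h
      · exact Or.inr ⟨s, t, b, h1, by rw [h3]; exact h2⟩
  rw [h4]
  exact (MeasurableSet.const _).union (MeasurableSet.iUnion fun s => MeasurableSet.iUnion fun t =>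
    MeasurableSet.iUnion fun b => MeasurableSet.iUnion fun t' =>
      (MeasurableSet.const _).inter (hm _ _))

/-- Isomorphism of binary relations on `ℕ` is Borel reducible to isomorphism of linear orders. -/
theorem graph_red : ∃ B : (ℕ × ℕ → Bool) → LO, Measurable B ∧
    ∀ G G', IsoLO (B G) (B G') ↔ IsoRel G G' := by
  obtain ⟨B, hB, h⟩ := t_coding t_colour t_decode t_tree (ℕ × ℕ → Bool) SS none top0 lab trn
    meas_trn (fun G s => Or.inl rfl)
  exact ⟨B, hB, fun G G' => (h G G').trans (bis_iff G G')⟩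

end Pool.Agent.H967KS
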