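import Mathlib
import Pool.Agent.H967KS.Comp
import Pool.Agent.H967KS.Graph

/-!
Isomorphism of countable graphs (binary relations on `ℕ`) is Borel reducible to topological
conjugacy of Kupka-Smale diffeomorphisms of the torus.
-/

set_option autoImplicit false

open Set MeasureTheory Pool.Agent.W919.CB Pool.Agent.H410R3.KS

namespace Pool.Agent.H967KS

/-- the strict order of a code -/
def toOC (L : LO) : OrderCode :=
  ⟨fun a b => decide (a ≠ b) && L.1 (a, b), fun a => by simp, fun a b c h1 h2 => by
    simp only [Bool.and_eq_true, decide_eq_true_eq] at *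
    refine ⟨?_, L.2.trans a b c h1.2 h2.2⟩
    rintro rfl
    exact h1.1 (L.2.antisymm a b h1.2 h2.2), fun a b hab => by
    simp only [Bool.and_eq_true, decide_eq_true_eq]
    rcases L.2.total a b with h | h
    · exact Or.inl ⟨hab, h⟩
    · exact Or.inr ⟨Ne.symm hab, h⟩⟩

theorem toOC_iso (L L' : LO) : (toOC L).Iso (toOC L') ↔ IsoLO L L' := by
  constructor
  · rintro ⟨π, h⟩
    refine ⟨π, fun a b => ?_⟩
    by_cases hab : a = b
    · rw [hab, L.2.refl, L'.2.refl]
    · have h1 := h a b
      have hab' : π a ≠ π b := fun e => hab (π.injective e)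
      simp only [toOC, ne_eq, hab, hab', not_false_eq_true, decide_true, Bool.true_and] at h1
      exact h1
  · rintro ⟨π, h⟩
    refine ⟨π, fun a b => ?_⟩
    show (decide (a ≠ b) && L.1 (a, b)) = (decide (π a ≠ π b) && L'.1 (π a, π b))
    rw [h a b]
    congr 1
    simp only [ne_eq, π.injective.eq_iff]

theorem toOC_cont : Continuous toOC := by
  refine Continuous.subtype_mk (continuous_pi fun a => continuous_pi fun b => ?_) _
  have h1 : Continuous (fun L : LO => L.1 (a, b)) :=
    (continuous_apply (a, b)).comp continuous_subtype_val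
  have h2 : Continuous (fun β : Bool => decide (a ≠ b) && β) := continuous_of_discreteTopology
  exact h2.comp h1

instance borel_LO' : BorelSpace LO := inferInstanceAs (BorelSpace {x : ℕ × ℕ → Bool // IsCode x})

theorem graph_main (r : ℕ∞) : ∃ Φ : (ℕ × ℕ → Bool) → KSDiff II CC r,
    @Measurable (ℕ × ℕ → Bool) (KSDiff II CC r) (borel _) (borel _) Φ ∧
    ∀ G G', TopConj (Φ G).1.map (Φ G').1.map ↔ IsoRel G G' := by
  obtain ⟨B, hB, h⟩ := graph_red
  refine ⟨fun G => Phi r (toOC (B G)), ?_, fun G G' => ?_⟩
  · let _ : MeasurableSpace (KSDiff II CC r) := borel _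
    have : BorelSpace (KSDiff II CC r) := ⟨rfl⟩
    have hc : Continuous (fun L : LO => Phi r (toOC L)) := (Phi_cont r).comp toOC_cont
    have hm : Measurable (fun G : ℕ × ℕ → Bool => Phi r (toOC (B G))) := hc.measurable.comp hB
    rw [← BorelSpace.measurable_eq (α := ℕ × ℕ → Bool)]
    exact hm
  · rw [Phi_iff, toOC_iso, h]

end Pool.Agent.H967KS
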